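import Pool.Agent.H26.MQ.Defs

/-!
# The Fourier transform of the Poisson kernel (PC)
-/

set_option autoImplicit false

open MeasureTheory Set Complex
open scoped FourierTransform

namespace Pool.Agent.H69.MQ

open Pool.Agent.H26.MQ Pool.Agent.H26.ML

/-- the function whose Fourier transform is the Poisson kernel -/
noncomputable def ea (c x : ℝ) : ℂ := (Real.exp (-(2 * Real.pi * c * |x|)) : ℂ)

theorem ea_continuous (c : ℝ) : Continuous (ea c) := by
  unfold ea
  fun_prop

theorem ea_mul_Ioi (c y x : ℝ) (hx : x ∈ Ioi (0 : ℝ)) :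
    cexp (((-2 * Real.pi * x * y : ℝ) : ℂ) * I) • ea c x =
      cexp ((-(2 * Real.pi * c : ℝ) - (2 * Real.pi * y : ℝ) * I) * x) := by
  unfold ea
  have h1 : (0 : ℝ) < x := hx
  rw [abs_of_pos h1, Complex.ofReal_exp, smul_eq_mul, ← Complex.exp_add]
  congr 1
  push_cast
  ring

theorem ea_mul_Iic (c y x : ℝ) (hx : x ∈ Iic (0 : ℝ)) :
    cexp (((-2 * Real.pi * x * y : ℝ) : ℂ) * I) • ea c x =
      cexp (((2 * Real.pi * c : ℝ) - (2 * Real.pi * y : ℝ) * I) * x) := by
  unfold ea
  have h1 : x ≤ 0 := hx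
  rw [abs_of_nonpos h1, Complex.ofReal_exp, smul_eq_mul, ← Complex.exp_add]
  congr 1
  push_cast
  ring

theorem re_Ioi {c : ℝ} (hc : 0 < c) (y : ℝ) :
    ((-(2 * Real.pi * c : ℝ) - (2 * Real.pi * y : ℝ) * I : ℂ)).re < 0 := by
  have := Real.pi_pos
  have h : 0 < 2 * Real.pi * c := by positivity
  have h2 : ((-(2 * Real.pi * c : ℝ) - (2 * Real.pi * y : ℝ) * I : ℂ)).re =
      -(2 * Real.pi * c) := by
    rw [Complex.sub_re, Complex.neg_re, Complex.ofReal_re, Complex.re_ofReal_mul, Complex.I_re]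
    ring
  rw [h2]
  linarith

theorem re_Iic {c : ℝ} (hc : 0 < c) (y : ℝ) :
    0 < (((2 * Real.pi * c : ℝ) - (2 * Real.pi * y : ℝ) * I : ℂ)).re := by
  have := Real.pi_pos
  have h : 0 < 2 * Real.pi * c := by positivity
  have h2 : (((2 * Real.pi * c : ℝ) - (2 * Real.pi * y : ℝ) * I : ℂ)).re =
      (2 * Real.pi * c) := by
    rw [Complex.sub_re, Complex.ofReal_re, Complex.re_ofReal_mul, Complex.I_re]
    ring
  rw [h2]
  exact h

theorem ea_integrable {c : ℝ} (hc : 0 < c) : Integrable (ea c) := by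
  rw [← integrableOn_univ, ← Iic_union_Ioi (a := (0 : ℝ))]
  refine IntegrableOn.union ?_ ?_
  · refine (integrableOn_exp_mul_complex_Iic (re_Iic hc 0) 0).congr_fun ?_ measurableSet_Iic
    intro x hx
    have := ea_mul_Iic c 0 x hx
    simp only [mul_zero, Complex.ofReal_zero, zero_mul, Complex.exp_zero, one_smul] at this
    rw [this]
    simp
  · refine (integrableOn_exp_mul_complex_Ioi (re_Ioi hc 0) 0).congr_fun ?_ measurableSet_Ioi
    intro x hx
    have := ea_mul_Ioi c 0 x hx
    simp only [mul_zero, Complex.ofReal_zero, zero_mul, Complex.exp_zero, one_smul] at this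
    rw [this]
    simp

theorem four {c : ℝ} (hc : 0 < c) (y : ℝ) :
    𝓕 (ea c) y = ((Real.pi⁻¹ * poi c y : ℝ) : ℂ) := by
  rw [Real.fourier_real_eq_integral_exp_smul]
  have hint : Integrable (fun x : ℝ => cexp (((-2 * Real.pi * x * y : ℝ) : ℂ) * I) • ea c x) := by
    refine (ea_integrable hc).norm.mono' ?_ ?_
    · have hc1 : Continuous fun x : ℝ => cexp (((-2 * Real.pi * x * y : ℝ) : ℂ) * I) := by
        fun_prop
      exact (hc1.smul (ea_continuous c)).aestronglyMeasurable
    · filter_upwards with x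
      rw [norm_smul, Complex.norm_exp_ofReal_mul_I, one_mul]
  rw [← setIntegral_univ, ← Iic_union_Ioi (a := (0 : ℝ)),
    setIntegral_union (Iic_disjoint_Ioi le_rfl) measurableSet_Ioi hint.integrableOn
      hint.integrableOn,
    setIntegral_congr_fun measurableSet_Iic (fun x hx => ea_mul_Iic c y x hx),
    setIntegral_congr_fun measurableSet_Ioi (fun x hx => ea_mul_Ioi c y x hx),
    integral_exp_mul_complex_Iic (re_Iic hc y), integral_exp_mul_complex_Ioi (re_Ioi hc y)]
  have hpi : (Real.pi : ℂ) ≠ 0 := by exact_mod_cast Real.pi_ne_zero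
  have h1 : ((c : ℂ) - y * I) ≠ 0 := by
    intro h
    have := congrArg Complex.re h
    rw [Complex.sub_re, Complex.ofReal_re, Complex.re_ofReal_mul, Complex.I_re] at this
    simp at this
    linarith
  have h2 : ((c : ℂ) + y * I) ≠ 0 := by
    intro h
    have := congrArg Complex.re h
    rw [Complex.add_re, Complex.ofReal_re, Complex.re_ofReal_mul, Complex.I_re] at this
    simp at this
    linarith
  have e1 : (((2 * Real.pi * c : ℝ) - (2 * Real.pi * y : ℝ) * I : ℂ)) =
      2 * Real.pi * (c - y * I) := by push_cast; ring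
  have e2 : ((-(2 * Real.pi * c : ℝ) - (2 * Real.pi * y : ℝ) * I : ℂ)) =
      -(2 * Real.pi * (c + y * I)) := by push_cast; ring
  have e3 : ((c : ℂ) ^ 2 + y ^ 2) = (c - y * I) * (c + y * I) := by
    have : (I : ℂ) ^ 2 = -1 := Complex.I_sq
    ring_nf
    rw [this]
    ring
  have e4 : ((Real.pi⁻¹ * poi c y : ℝ) : ℂ) = (Real.pi : ℂ)⁻¹ * (c / ((c - y * I) * (c + y * I))) := by
    unfold poi
    push_cast
    rw [e3]
  rw [e1, e2, e4]
  simp only [Complex.ofReal_zero, mul_zero, Complex.exp_zero]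
  field_simp
  ring

/-- the complex form -/
theorem pcC {c : ℝ} (hc : 0 < c) (ξ : ℝ) :
    ∫ y : ℝ, cexp ((ξ * y : ℝ) * I) * (poi c y : ℂ) = ((Real.pi * Real.exp (-(c * |ξ|)) : ℝ) : ℂ) := by
  have hF : 𝓕 (ea c) = fun y => ((Real.pi⁻¹ * poi c y : ℝ) : ℂ) := by
    ext y
    exact four hc y
  have hFi : Integrable (𝓕 (ea c)) := by
    rw [hF]
    exact ((poi_integrable hc).const_mul _).ofReal
  have h1 := congrFun ((ea_continuous c).fourierInv_fourier_eq (ea_integrable hc) hFi)
    (ξ / (2 * Real.pi))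
  rw [Real.fourierInv_eq', hF] at h1
  have h2 : ∀ y : ℝ, cexp (((2 * Real.pi * inner ℝ y (ξ / (2 * Real.pi)) : ℝ) : ℂ) * I) •
      ((Real.pi⁻¹ * poi c y : ℝ) : ℂ) = (Real.pi : ℂ)⁻¹ * (cexp ((ξ * y : ℝ) * I) * (poi c y : ℂ)) := by
    intro y
    have e : 2 * Real.pi * inner ℝ y (ξ / (2 * Real.pi)) = ξ * y := by
      rw [RCLike.inner_apply, conj_trivial]
      have := Real.pi_ne_zero
      field_simp
    rw [e, smul_eq_mul]
    push_cast
    ring
  rw [integral_congr_ae (Filter.Eventually.of_forall h2), integral_const_mul] at h1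
  have hpi : (Real.pi : ℂ) ≠ 0 := by exact_mod_cast Real.pi_ne_zero
  have h3 : ea c (ξ / (2 * Real.pi)) = (Real.exp (-(c * |ξ|)) : ℂ) := by
    unfold ea
    rw [abs_div, abs_of_pos (by positivity : (0 : ℝ) < 2 * Real.pi)]
    congr 2
    have := Real.pi_ne_zero
    field_simp
  rw [h3, inv_mul_eq_iff_eq_mul₀ hpi] at h1
  rw [h1]
  push_cast
  ring

theorem pf_pc : T_PC := by
  intro c ξ v hc hξ
  have hi : Integrable (fun u => poi c (v - u)) := (poi_integrable hc).comp_sub_left v
  have h1 : Integrable (fun u => poi c (v - u) * Real.cos (ξ * u)) := by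
    refine hi.mono' ?_ ?_
    · exact (((poi_continuous hc).comp (by fun_prop : Continuous fun u : ℝ => v - u)).mul
        (by fun_prop : Continuous fun u : ℝ => Real.cos (ξ * u))).aestronglyMeasurable
    · filter_upwards with u
      rw [norm_mul, Real.norm_of_nonneg (poi_pos hc _).le]
      have h2 := Real.abs_cos_le_one (ξ * u)
      have h3 := (poi_pos hc (v - u)).le
      calc poi c (v - u) * ‖Real.cos (ξ * u)‖ ≤ poi c (v - u) * 1 :=
            mul_le_mul_of_nonneg_left h2 h3
        _ = _ := mul_one _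
  refine ⟨h1, ?_⟩
  -- the complex integral
  have h4 : ∫ u : ℝ, (poi c (v - u) : ℂ) * cexp ((ξ * u : ℝ) * I) =
      cexp ((ξ * v : ℝ) * I) * ((Real.pi * Real.exp (-(c * |ξ|)) : ℝ) : ℂ) := by
    have h5 := integral_sub_left_eq_self
      (fun y : ℝ => (poi c y : ℂ) * cexp ((ξ * (v - y) : ℝ) * I)) volume v
    simp only [sub_sub_cancel] at h5
    rw [h5]
    have h6 := pcC hc (-ξ)
    rw [abs_neg] at h6
    rw [← h6, ← integral_const_mul]
    refine integral_congr_ae (Filter.Eventually.of_forall fun y => ?_)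
    show (poi c y : ℂ) * cexp ((ξ * (v - y) : ℝ) * I) =
      cexp ((ξ * v : ℝ) * I) * (cexp ((-ξ * y : ℝ) * I) * (poi c y : ℂ))
    rw [← mul_assoc, ← Complex.exp_add, mul_comm]
    congr 2
    push_cast
    ring
  have h7 : Integrable (fun u : ℝ => (poi c (v - u) : ℂ) * cexp ((ξ * u : ℝ) * I)) := by
    refine hi.mono' ?_ ?_
    · have hc1 : Continuous fun u : ℝ => (poi c (v - u) : ℂ) :=
        Complex.continuous_ofReal.comp ((poi_continuous hc).comp (by fun_prop))
      exact (hc1.mul (by fun_prop)).aestronglyMeasurable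
    · filter_upwards with u
      rw [norm_mul, Complex.norm_exp_ofReal_mul_I, mul_one, Complex.norm_real,
        Real.norm_of_nonneg (poi_pos hc _).le]
  have h8 := Complex.reCLM.integral_comp_comm h7
  rw [h4] at h8
  have h9 : ∀ u : ℝ, Complex.reCLM ((poi c (v - u) : ℂ) * cexp ((ξ * u : ℝ) * I)) =
      poi c (v - u) * Real.cos (ξ * u) := by
    intro u
    rw [Complex.reCLM_apply, Complex.re_ofReal_mul, Complex.exp_ofReal_mul_I_re]
  rw [integral_congr_ae (Filter.Eventually.of_forall h9)] at h8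
  rw [h8, Complex.reCLM_apply, Complex.re_mul_ofReal, Complex.exp_ofReal_mul_I_re,
    abs_of_nonneg hξ]
  ring

end Pool.Agent.H69.MQ
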