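import Pool.Agent.H26.MQ.Defs

/-!
# The part `r > 1/4` is small (TL)
-/

set_option autoImplicit false

open MeasureTheory Set
open scoped ENNReal

namespace Pool.Agent.H69.MQ

open Pool.Agent.H26.MQ Pool.Agent.H26.ML

theorem arc_enorm_le {δ u r : ℝ} (hδ : 0 < δ) (hr : 0 < r) :
    ‖arc δ u r‖ₑ ≤ ∫⁻ θ in Ioo (-(Real.pi / 2)) (Real.pi / 2),
      ENNReal.ofReal (poi (r * Real.cos θ + δ) (r * Real.sin θ - u)) := by
  have hpi := Real.pi_pos
  unfold arc
  rw [intervalIntegral.integral_of_le (by linarith)]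
  refine (enorm_integral_le_lintegral_enorm _).trans ?_
  rw [← Measure.restrict_congr_set (Ioo_ae_eq_Ioc (μ := volume))]
  refine setLIntegral_mono' measurableSet_Ioo fun θ hθ => ?_
  have hcos : 0 < Real.cos θ := Real.cos_pos_of_mem_Ioo hθ
  rw [Real.enorm_of_nonneg (poi_pos (by positivity) _).le]

/-- the function in the plane -/
noncomputable def FF (δ u : ℝ) : ℝ × ℝ → ℝ≥0∞ :=
  {p : ℝ × ℝ | 0 < p.1 ∧ 1 / 16 < p.1 ^ 2 + p.2 ^ 2}.indicator fun p =>
    ENNReal.ofReal (((p.1 ^ 2 + p.2 ^ 2) ^ 2)⁻¹) * ENNReal.ofReal (poi (p.1 + δ) (p.2 - u))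

theorem FF_measurable (δ u : ℝ) : Measurable (FF δ u) := by
  unfold FF
  refine Measurable.indicator ?_ ?_
  · unfold poi
    fun_prop
  · have h1 : Measurable fun p : ℝ × ℝ => p.1 ^ 2 + p.2 ^ 2 := by fun_prop
    exact (measurableSet_lt measurable_const measurable_fst).inter
      (measurableSet_lt measurable_const h1)

theorem polar_le {δ u : ℝ} :
    ∫⁻ r in Ioi (1 / 4 : ℝ), ENNReal.ofReal ((r ^ 3)⁻¹) *
      ∫⁻ θ in Ioo (-(Real.pi / 2)) (Real.pi / 2),
        ENNReal.ofReal (poi (r * Real.cos θ + δ) (r * Real.sin θ - u)) ≤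
      ∫⁻ p : ℝ × ℝ, FF δ u p := by
  have hpi := Real.pi_pos
  rw [← lintegral_comp_polarCoord_symm, polarCoord_target]
  have hsub : Ioi (1 / 4 : ℝ) ×ˢ Ioo (-(Real.pi / 2)) (Real.pi / 2) ⊆
      Ioi (0 : ℝ) ×ˢ Ioo (-Real.pi) Real.pi := by
    refine prod_mono (Ioi_subset_Ioi (by norm_num)) ?_
    exact Ioo_subset_Ioo (by linarith) (by linarith)
  refine le_trans ?_ (lintegral_mono_set hsub)
  rw [Measure.volume_eq_prod, ← Measure.prod_restrict, lintegral_prod]
  · refine setLIntegral_mono' measurableSet_Ioi fun r hr => ?_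
    have hr0 : (1 / 4 : ℝ) < r := hr
    have hr1 : 0 < r := by linarith
    rw [← lintegral_const_mul' _ _ ENNReal.ofReal_ne_top]
    refine setLIntegral_mono' measurableSet_Ioo fun θ hθ => ?_
    have hcos : 0 < Real.cos θ := Real.cos_pos_of_mem_Ioo hθ
    have hmod : (r * Real.cos θ) ^ 2 + (r * Real.sin θ) ^ 2 = r ^ 2 := by
      have := Real.sin_sq_add_cos_sq θ
      nlinarith
    have hmem : (r * Real.cos θ, r * Real.sin θ) ∈
        {p : ℝ × ℝ | 0 < p.1 ∧ 1 / 16 < p.1 ^ 2 + p.2 ^ 2} := by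
      refine ⟨by positivity, ?_⟩
      show 1 / 16 < (r * Real.cos θ) ^ 2 + (r * Real.sin θ) ^ 2
      rw [hmod]
      nlinarith
    rw [polarCoord_symm_apply, smul_eq_mul]
    unfold FF
    rw [indicator_of_mem hmem]
    show ENNReal.ofReal ((r ^ 3)⁻¹) *
        ENNReal.ofReal (poi (r * Real.cos θ + δ) (r * Real.sin θ - u)) ≤
      ENNReal.ofReal r * (ENNReal.ofReal ((((r * Real.cos θ) ^ 2 + (r * Real.sin θ) ^ 2) ^ 2)⁻¹) *
        ENNReal.ofReal (poi (r * Real.cos θ + δ) (r * Real.sin θ - u)))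
    rw [hmod, ← mul_assoc, ← ENNReal.ofReal_mul hr1.le]
    have e : r * ((r ^ 2) ^ 2)⁻¹ = (r ^ 3)⁻¹ := by
      field_simp
    rw [e]
  · have h1 : Measurable fun p : ℝ × ℝ => FF δ u (polarCoord.symm p) := by
      refine (FF_measurable δ u).comp ?_
      have : (fun p : ℝ × ℝ => polarCoord.symm p) =
          fun p : ℝ × ℝ => (p.1 * Real.cos p.2, p.1 * Real.sin p.2) := by
        ext p <;> rw [polarCoord_symm_apply]
      have h2 : Measurable fun p : ℝ × ℝ => (p.1 * Real.cos p.2, p.1 * Real.sin p.2) := by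
        fun_prop
      rw [← this] at h2
      exact h2
    simp only [smul_eq_mul]
    exact (((ENNReal.measurable_ofReal.comp measurable_fst).mul h1)).aemeasurable

theorem slice_le (hSG : T_SG) {δ u : ℝ} (hδ : 0 < δ) (hδ1 : δ ≤ 1) (x : ℝ) :
    ∫⁻ y : ℝ, FF δ u (x, y) ≤ ENNReal.ofReal (867 * Real.pi * poi 1 u * (1 + x ^ 2)⁻¹) := by
  have hpi := Real.pi_pos
  rcases le_or_gt x 0 with hx | hx
  · have h0 : ∀ y : ℝ, FF δ u (x, y) = 0 := by
      intro y
      unfold FF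
      rw [indicator_of_notMem]
      rintro ⟨h1, -⟩
      exact absurd h1 (not_lt.2 hx)
    simp [h0]
  · obtain ⟨w, hw⟩ : ∃ w : ℝ, w = Real.sqrt (1 + x ^ 2) := ⟨_, rfl⟩
    have hw2 : w ^ 2 = 1 + x ^ 2 := by rw [hw, Real.sq_sqrt (by positivity)]
    have hw1 : 1 ≤ w := by
      rw [hw]
      exact Real.one_le_sqrt.2 (by nlinarith)
    have hw0 : 0 < w := by linarith
    have hxw : x ≤ w := by nlinarith
    obtain ⟨hI, hV⟩ := hSG (x + δ) w u (by positivity) hw0
    have hpt : ∀ y : ℝ, FF δ u (x, y) ≤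
        ENNReal.ofReal (289 * (w ^ 3)⁻¹ * (poi (x + δ) (y - u) * poi w y)) := by
      intro y
      have hp := (poi_pos (by positivity : 0 < x + δ) (y - u))
      unfold FF
      by_cases hm : (x, y) ∈ {p : ℝ × ℝ | 0 < p.1 ∧ 1 / 16 < p.1 ^ 2 + p.2 ^ 2}
      · rw [indicator_of_mem hm]
        have h1 : 1 / 16 < x ^ 2 + y ^ 2 := hm.2
        show ENNReal.ofReal (((x ^ 2 + y ^ 2) ^ 2)⁻¹) * ENNReal.ofReal (poi (x + δ) (y - u)) ≤ _
        rw [← ENNReal.ofReal_mul (by positivity)]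
        refine ENNReal.ofReal_le_ofReal ?_
        have h2 : ((x ^ 2 + y ^ 2) ^ 2)⁻¹ ≤ 289 * (w ^ 3)⁻¹ * poi w y := by
          unfold poi
          have h3 : w ^ 2 + y ^ 2 ≤ 17 * (x ^ 2 + y ^ 2) := by rw [hw2]; linarith
          have h4 : 0 < x ^ 2 + y ^ 2 := by linarith
          have h5 : 289 * (w ^ 3)⁻¹ * (w / (w ^ 2 + y ^ 2)) =
              289 / (w ^ 2 * (w ^ 2 + y ^ 2)) := by
            field_simp
          rw [h5, inv_eq_one_div, div_le_div_iff₀ (by positivity) (by positivity)]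
          have h6 : w ^ 2 ≤ w ^ 2 + y ^ 2 := by nlinarith [sq_nonneg y]
          have h7 : w ^ 2 * (w ^ 2 + y ^ 2) ≤ (w ^ 2 + y ^ 2) * (w ^ 2 + y ^ 2) := by gcongr
          have h8 : (w ^ 2 + y ^ 2) * (w ^ 2 + y ^ 2) ≤
              (17 * (x ^ 2 + y ^ 2)) * (17 * (x ^ 2 + y ^ 2)) := by gcongr
          linarith
        calc ((x ^ 2 + y ^ 2) ^ 2)⁻¹ * poi (x + δ) (y - u) ≤
              (289 * (w ^ 3)⁻¹ * poi w y) * poi (x + δ) (y - u) := by gcongr
          _ = _ := by ring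
      · rw [indicator_of_notMem hm]
        exact bot_le
    refine (lintegral_mono hpt).trans ?_
    have hnn : 0 ≤ᵐ[volume] fun y : ℝ => 289 * (w ^ 3)⁻¹ * (poi (x + δ) (y - u) * poi w y) := by
      filter_upwards with y
      have h1 := (poi_pos (by positivity : 0 < x + δ) (y - u))
      have h2 := poi_pos hw0 y
      show 0 ≤ 289 * (w ^ 3)⁻¹ * (poi (x + δ) (y - u) * poi w y)
      positivity
    rw [← ofReal_integral_eq_lintegral_ofReal (hI.const_mul _) hnn, integral_const_mul, hV]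
    refine ENNReal.ofReal_le_ofReal ?_
    rw [← hw2]
    unfold poi
    have h1 : (x + δ + w) / ((x + δ + w) ^ 2 + u ^ 2) ≤ 3 * w / (1 ^ 2 + u ^ 2) := by
      refine div_le_div₀ (by positivity) (by linarith) (by positivity) ?_
      have : 1 ≤ x + δ + w := by linarith
      nlinarith
    calc 289 * (w ^ 3)⁻¹ * (Real.pi * ((x + δ + w) / ((x + δ + w) ^ 2 + u ^ 2))) ≤
          289 * (w ^ 3)⁻¹ * (Real.pi * (3 * w / (1 ^ 2 + u ^ 2))) := by gcongr
      _ = 867 * Real.pi * (1 / (1 ^ 2 + u ^ 2)) * (w ^ 2)⁻¹ := by field_simp; ring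

theorem plane_le (hSG : T_SG) {δ u : ℝ} (hδ : 0 < δ) (hδ1 : δ ≤ 1) :
    ∫⁻ p : ℝ × ℝ, FF δ u p ≤ ENNReal.ofReal (867 * Real.pi * poi 1 u * Real.pi) := by
  have hpi := Real.pi_pos
  have hp := poi_pos one_pos u
  rw [Measure.volume_eq_prod]
  refine (lintegral_prod_le _).trans ?_
  refine (lintegral_mono fun x => slice_le hSG hδ hδ1 x).trans ?_
  have hi : Integrable fun x : ℝ => 867 * Real.pi * poi 1 u * (1 + x ^ 2)⁻¹ :=
    integrable_inv_one_add_sq.const_mul _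
  rw [← ofReal_integral_eq_lintegral_ofReal hi, integral_const_mul, integral_univ_inv_one_add_sq]
  filter_upwards with x
  show 0 ≤ 867 * Real.pi * poi 1 u * (1 + x ^ 2)⁻¹
  positivity

theorem pf_tl (hPB : T_PB) (hSG : T_SG) : T_TL := by
  have hpi := Real.pi_pos
  obtain ⟨hp0, -, hp3, -⟩ := hPB
  refine ⟨36 * (867 * Real.pi * Real.pi), by positivity, ?_⟩
  intro δ u N hδ hδ1 hN
  have hN0 : 0 < N := by linarith
  have hp := poi_pos one_pos u
  have hgoal : ‖∫ r in Ioi (1 / 4 : ℝ), N * pp (N * r) * arc δ u r‖ₑ ≤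
      ENNReal.ofReal (36 * (867 * Real.pi * Real.pi) / N ^ 2 * poi 1 u) := by
    refine (enorm_integral_le_lintegral_enorm _).trans ?_
    have h1 : ∀ r ∈ Ioi (1 / 4 : ℝ), ‖N * pp (N * r) * arc δ u r‖ₑ ≤
        ENNReal.ofReal (36 / N ^ 2) * (ENNReal.ofReal ((r ^ 3)⁻¹) *
          ∫⁻ θ in Ioo (-(Real.pi / 2)) (Real.pi / 2),
            ENNReal.ofReal (poi (r * Real.cos θ + δ) (r * Real.sin θ - u))) := by
      intro r hr
      have hr0 : (1 / 4 : ℝ) < r := hr
      have hr1 : 0 < r := by linarith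
      have hNr : 0 < N * r := by positivity
      have h2 : N * pp (N * r) ≤ 36 / N ^ 2 * (r ^ 3)⁻¹ := by
        calc N * pp (N * r) ≤ N * (36 / (N * r) ^ 3) :=
              mul_le_mul_of_nonneg_left (hp3 _ hNr) hN0.le
          _ = _ := by field_simp
      have h3 : 0 ≤ N * pp (N * r) := mul_nonneg hN0.le (hp0 _ hNr.le)
      rw [enorm_mul, Real.enorm_of_nonneg h3, ← mul_assoc,
        ← ENNReal.ofReal_mul (by positivity : (0 : ℝ) ≤ 36 / N ^ 2)]
      exact mul_le_mul' (ENNReal.ofReal_le_ofReal h2) (arc_enorm_le hδ hr1)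
    refine (setLIntegral_mono' measurableSet_Ioi h1).trans ?_
    rw [lintegral_const_mul' _ _ ENNReal.ofReal_ne_top]
    refine (mul_le_mul_right (polar_le.trans (plane_le hSG hδ hδ1)) _).trans ?_
    rw [← ENNReal.ofReal_mul (by positivity)]
    refine ENNReal.ofReal_le_ofReal (le_of_eq ?_)
    ring
  have hb : 0 ≤ 36 * (867 * Real.pi * Real.pi) / N ^ 2 * poi 1 u := by positivity
  rw [Real.enorm_eq_ofReal_abs] at hgoal
  exact (le_abs_self _).trans ((ENNReal.ofReal_le_ofReal_iff hb).1 hgoal)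

end Pool.Agent.H69.MQ
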